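import Mathlib
import Pool.Agent.H60R3.SubInf

/-!
# Spaces with a base of subinfinite rank

Every `T₁` space which has a base of subinfinite rank is metacompact. For spaces which are only
`T₀` this fails: the set of natural numbers with the topology whose open sets are the initial segments
has a base which is a chain (the sets `{0, …, n}`), and it is not metacompact.
-/

namespace Pool.Agent.Results.MP_03f7b8_gt.SubinfiniteRankMetacompact

open Set

universe u

/-- No member of the family is contained in another one. -/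
def Incomparable {X : Type*} (Γ : Set (Set X)) : Prop :=
  ∀ A ∈ Γ, ∀ B ∈ Γ, A ≠ B → ¬ A ⊆ B ∧ ¬ B ⊆ A

/-- Every incomparable subfamily with a common point is finite. -/
def SubinfiniteRank {X : Type*} (Γ : Set (Set X)) : Prop :=
  ∀ Γ' ⊆ Γ, Incomparable Γ' → (⋂₀ Γ').Nonempty → Γ'.Finite

/-- Every open cover has a point-finite open refinement. -/
def Metacompact (X : Type*) [TopologicalSpace X] : Prop :=
  ∀ U : Set (Set X), (∀ u ∈ U, IsOpen u) → ⋃₀ U = univ →
    ∃ V : Set (Set X), (∀ v ∈ V, IsOpen v) ∧ ⋃₀ V = univ ∧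
      (∀ v ∈ V, ∃ u ∈ U, v ⊆ u) ∧ ∀ x : X, {v ∈ V | x ∈ v}.Finite

/-- The topology on `ℕ` whose open sets are the initial segments. -/
def initialTopology : TopologicalSpace ℕ where
  IsOpen U := ∀ m ∈ U, ∀ k ≤ m, k ∈ U
  isOpen_univ := fun _ _ _ _ => trivial
  isOpen_inter := fun _ _ hU hV m hm k hk => ⟨hU m hm.1 k hk, hV m hm.2 k hk⟩
  isOpen_sUnion := fun _ hS m ⟨U, hU, hm⟩ k hk => ⟨U, hU, hS U hU m hm k hk⟩

theorem initial_basis : @TopologicalSpace.IsTopologicalBasis ℕ initialTopology
    (Set.range fun n : ℕ => Set.Iic n) := by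
  letI := initialTopology
  refine TopologicalSpace.isTopologicalBasis_of_isOpen_of_nhds ?_ ?_
  · rintro _ ⟨n, rfl⟩ m hm k hk
    exact le_trans hk hm
  · intro n U hn hU
    exact ⟨Set.Iic n, ⟨n, rfl⟩, Set.self_mem_Iic, fun k hk => hU n hn k hk⟩

theorem initial_rank : SubinfiniteRank (Set.range fun n : ℕ => Set.Iic n) := by
  intro Γ' hΓ hinc _
  refine Set.Subsingleton.finite ?_
  intro A hA B hB
  by_contra hne
  obtain ⟨a, rfl⟩ := hΓ hA
  obtain ⟨b, rfl⟩ := hΓ hB
  rcases le_total a b with h | h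
  · exact (hinc _ hA _ hB hne).1 (Set.Iic_subset_Iic.2 h)
  · exact (hinc _ hA _ hB hne).2 (Set.Iic_subset_Iic.2 h)

theorem initial_t0 : @T0Space ℕ initialTopology := by
  letI := initialTopology
  refine (t0Space_iff_inseparable ℕ).2 fun a b hab => ?_
  rw [inseparable_iff_forall_isOpen] at hab
  have h1 : IsOpen (Set.Iic a) := fun m hm k hk => le_trans hk hm
  have h2 : IsOpen (Set.Iic b) := fun m hm k hk => le_trans hk hm
  exact le_antisymm ((hab _ h2).2 Set.self_mem_Iic) ((hab _ h1).1 Set.self_mem_Iic)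

theorem initial_not : ¬ @Metacompact ℕ initialTopology := by
  letI := initialTopology
  intro h
  obtain ⟨V, h1, h2, h3, h4⟩ := h (Set.range fun n : ℕ => Set.Iic n) (by
    rintro _ ⟨n, rfl⟩ m hm k hk
    exact le_trans hk hm) (by
    rw [Set.eq_univ_iff_forall]
    exact fun n => ⟨Set.Iic n, ⟨n, rfl⟩, Set.self_mem_Iic⟩)
  have h5 : ∀ n : ℕ, ∃ v ∈ V, n ∈ v := by
    intro n
    have : n ∈ ⋃₀ V := by rw [h2]; trivial
    exact this
  -- all the sets which contain `0` are bounded, and there are finitely many of them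
  have h6 : (⋃ v ∈ {v ∈ V | 0 ∈ v}, v).Finite := by
    refine Set.Finite.biUnion (h4 0) fun v hv => ?_
    obtain ⟨_, ⟨n, rfl⟩, hn⟩ := h3 v hv.1
    exact (Set.finite_Iic n).subset hn
  have h7 : (⋃ v ∈ {v ∈ V | 0 ∈ v}, v) = Set.univ := by
    rw [Set.eq_univ_iff_forall]
    intro n
    obtain ⟨v, hv, hn⟩ := h5 n
    exact mem_iUnion₂.2 ⟨v, ⟨hv, h1 v hv n hn 0 (Nat.zero_le n)⟩, hn⟩
  rw [h7] at h6
  exact Set.infinite_univ h6

/-- Every `T₁` space with a base of subinfinite rank is metacompact; there is a `T₀` space with a base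
of subinfinite rank (even a base which is a chain) which is not metacompact. -/
theorem result :
    (∀ (X : Type u) [TopologicalSpace X] [T1Space X] (B : Set (Set X)),
      TopologicalSpace.IsTopologicalBasis B → SubinfiniteRank B → Metacompact X) ∧
    ∃ (X : Type) (_ : TopologicalSpace X) (B : Set (Set X)), T0Space X ∧
      TopologicalSpace.IsTopologicalBasis B ∧ IsChain (· ⊆ ·) B ∧ SubinfiniteRank B ∧
      ¬ Metacompact X := by
  constructor
  · intro X _ _ B hB H U hU hUc
    refine Pool.Agent.H60R3.SubInf.metacompact B hB ?_ U hU hUc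
    intro L hL hinf hne
    by_contra hn
    push Not at hn
    exact hinf (H L hL (fun A hA C hC hAC => ⟨hn A hA C hC hAC, hn C hC A hA hAC.symm⟩) hne)
  · refine ⟨ℕ, initialTopology, _, initial_t0, initial_basis, ?_, initial_rank, initial_not⟩
    rintro _ ⟨a, rfl⟩ _ ⟨b, rfl⟩ _
    rcases le_total a b with h | h
    · exact Or.inl (Set.Iic_subset_Iic.2 h)
    · exact Or.inr (Set.Iic_subset_Iic.2 h)

end Pool.Agent.Results.MP_03f7b8_gt.SubinfiniteRankMetacompact
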